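import Pool.Agent.Run7.h536.CE15

set_option autoImplicit false

/-!
# Prime quadruples `p`, `p + 2 + h₀`, `p + 6 + h₁`, `p + 8 + h₂` for bilinear displacements with ARBITRARY perturbations

The problem asks whether `n`, `n + 2`, `n + 6`, `n + 8` are all prime for infinitely many `n` (except for `n = 3` this means
that at least four of the five odd integers `n, n + 2, ..., n + 8` are prime). Here the last three members are displaced by
numbers `h₀`, `h₁`, `h₂` of the following kind: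

`h_l = κ_l v_l w_l + F_l(v_l) + G_l(w_l)`,

where `v_l` and `w_l` run through ANY two families of integers up to `B X_l` and `B Y_l` of nearly minimal additive energy
(for example values of polynomials at integers with restricted digits or at primes; the families may have as few as
`N ^ δ` members, `δ > 0` arbitrarily small), the `κ_l` are nonzero integers, and `F_l`, `G_l` are ARBITRARY functions of
the members.

Proof. The families of the `h_l` have again nearly minimal energy (`Pool.Agent.Run7.h536.TB1` to `TB3`, Hölder's inequality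
twice and an estimate for bilinear exponential sums); for families of nearly minimal energy the prime values of systems of
linear forms are counted in the starting files (`TH935.TF8`, `TF9`: sieve, circle method, theorem of Siegel and Walfisz);
`CE13`, `CE15` combine both and give all small shifts at once.
-/

namespace Pool.Agent.Results.MP_fc51f7_nt.BilinearDisplacements

open Finset Filter Topology

/-- The number of residue classes of `n` modulo `p` for which `n` or one of `α_i n + β_i`, `i < 3`, is divisible by `p`. -/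
def omega (α β : Fin 3 → ℤ) (p : ℕ) : ℕ :=
  ((range p).filter (fun n : ℕ => (p : ℤ) ∣ (n : ℤ) * ∏ i, (α i * (n : ℤ) + β i))).card

/-- The product over the primes `p ≤ z` of `(1 - omega(p) / p) (1 - 1 / p) ^ (-4)`. -/
noncomputable def partialConstant (α β : Fin 3 → ℤ) (z : ℕ) : ℝ :=
  ∏ p ∈ (Icc 1 z).filter Nat.Prime, (1 - (omega α β p : ℝ) / p) / (1 - 1 / (p : ℝ)) ^ 4

/-- The number of primes `p` with `y₁ < p ≤ y₂` for which `|α_i p + β_i|` is prime for `i = 0, 1, 2`. -/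
def count (α β : Fin 3 → ℤ) (y₁ y₂ : ℕ) : ℕ :=
  ((Ioc y₁ y₂).filter (fun p : ℕ => p.Prime ∧ ∀ i, (α i * (p : ℤ) + β i).natAbs.Prime)).card

/-- No two of the forms `n`, `α_i n + β_i` are equal up to sign, they are not constant, and their product has no fixed prime
divisor. -/
def Admissible (α β : Fin 3 → ℤ) : Prop :=
  (∀ i, α i ≠ 0) ∧ (∀ i, ¬ (β i = 0 ∧ (α i = 1 ∨ α i = -1))) ∧
  (∀ i j, i ≠ j → ¬ (α i = α j ∧ β i = β j) ∧ ¬ (α i = -α j ∧ β i = -β j)) ∧
  (∀ p : ℕ, p.Prime → ∃ n : ℤ, ¬ (p : ℤ) ∣ n * ∏ i, (α i * n + β i))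

/-- The Hardy-Littlewood formula for all the quadruples `p`, `α_i p + c_i + h_i` (`i < 3`) with `|α_i|, |c_i| ≤ log ^ D N`
(for `α = (1, 1, 1)` and `c = (2, 6, 8)`: `p`, `p + 2 + h₀`, `p + 6 + h₁`, `p + 8 + h₂`): whenever the quadruple is
admissible, the infinite product converges to a positive `S`, and for all `y₁ < y₂ ≤ B N` with
`y₂ - y₁ ≥ N / log ^ A N` the number of quadruples of primes with `y₁ < p ≤ y₂` is `S (y₂ - y₁) / log ^ 4 N` with a
relative error of at most `ε`. -/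
def HardyLittlewood (ε : ℝ) (A B D N : ℕ) (h : Fin 3 → ℤ) : Prop :=
  ∀ c : Fin 3 → ℤ, (∀ i, (|c i| : ℝ) ≤ Real.log N ^ D) →
  ∀ α : Fin 3 → ℤ, (∀ i, (|α i| : ℝ) ≤ Real.log N ^ D) → Admissible α (fun i => h i + c i) →
    ∃ S : ℝ, 0 < S ∧ Tendsto (partialConstant α (fun i => h i + c i)) atTop (𝓝 S) ∧
      ∀ y₁ y₂ : ℕ, y₁ < y₂ → y₂ ≤ B * N → (N : ℝ) / Real.log N ^ A ≤ (y₂ : ℝ) - y₁ →
        |(count α (fun i => h i + c i) y₁ y₂ : ℝ) - S * ((y₂ : ℝ) - y₁) / Real.log N ^ 4| ≤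
          ε * (S * ((y₂ : ℝ) - y₁) / Real.log N ^ 4)

/-- The additive energy of order `h` of a finite family of integers `v i`: the number of solutions of
`v (a 1) + ... + v (a h) = v (b 1) + ... + v (b h)`. -/
noncomputable def energy (h : ℕ) {ι : Type} [Fintype ι] (v : ι → ℤ) : ℕ :=
  Nat.card {q : (Fin h → ι) × (Fin h → ι) // ∑ j, v (q.1 j) = ∑ j, v (q.2 j)}

open Pool.Agent.TH935.TF

lemma dvd_prod (α β : Fin 3 → ℤ) (p : ℕ) (hp : p.Prime) (n : ℤ) :
    (p : ℤ) ∣ n * ∏ i, (α i * n + β i) ↔ ∃ i, (p : ℤ) ∣ consA α i * n + consB β i := by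
  have hpi := Nat.prime_iff_prime_int.1 hp
  have h := hpi.dvd_finsetProd_iff (S := univ) (fun i => α i * n + β i)
  have e : (∃ i, (p : ℤ) ∣ consA α i * n + consB β i) ↔ (p : ℤ) ∣ n ∨ ∃ i, (p : ℤ) ∣ α i * n + β i := by
    rw [Fin.exists_fin_succ]
    simp only [consA_zero, consB_zero, consA_succ, consB_succ, one_mul, add_zero]
  rw [hpi.dvd_mul, h, e]
  simp only [mem_univ, true_and]

lemma omega_eq (α β : Fin 3 → ℤ) (p : ℕ) (hp : p.Prime) : omega α β p = om (consA α) (consB β) p := by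
  unfold omega om
  congr 1
  apply filter_congr
  intro n _
  exact dvd_prod α β p hp n

lemma euler_eq (α β : Fin 3 → ℤ) : partialConstant α β = fun z => Gz (om (consA α) (consB β)) 4 z := by
  funext z
  unfold partialConstant Gz Fq Pool.Agent.H373R2.T7.pz
  apply prod_congr rfl
  intro p hp
  rw [omega_eq α β p (mem_filter.1 hp).2]

lemma count_eq (α β : Fin 3 → ℤ) (y₁ y₂ : ℕ) : count α β y₁ y₂ = cn (consA α) (consB β) y₁ y₂ := by
  unfold count cn
  congr 1
  apply filter_congr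
  intro n _
  have e : (∀ i, (consA α i * (n : ℤ) + consB β i).natAbs.Prime) ↔ n.Prime ∧ ∀ i, (α i * (n : ℤ) + β i).natAbs.Prime := by
    rw [Fin.forall_fin_succ]
    simp only [consA_zero, consB_zero, consA_succ, consB_succ, one_mul, add_zero, Int.natAbs_natCast]
  exact e.symm

lemma adm_of (α β : Fin 3 → ℤ) (h : Admissible α β) : Adm (consA α) (consB β) := by
  intro p hp
  obtain ⟨n, hn⟩ := h.2.2.2 p hp
  refine ⟨n, fun i hi => hn ?_⟩
  exact (dvd_prod α β p hp n).2 ⟨i, hi⟩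

lemma dist_of (α β : Fin 3 → ℤ) (h : Admissible α β) : Dist (consA α) (consB β) := by
  obtain ⟨_, h2, h3, _⟩ := h
  intro i j
  refine Fin.cases ?_ (fun i => ?_) i <;> refine Fin.cases ?_ (fun j => ?_) j <;> intro hij
  · exact absurd rfl hij
  · rw [consA_zero, consB_zero, consA_succ, consB_succ]
    exact ⟨fun hh => h2 j ⟨hh.2.symm, Or.inl hh.1.symm⟩, fun hh => h2 j ⟨by omega, Or.inr (by omega)⟩⟩
  · rw [consA_zero, consB_zero, consA_succ, consB_succ]
    exact ⟨fun hh => h2 i ⟨hh.2, Or.inl hh.1⟩, fun hh => h2 i ⟨by omega, Or.inr (by omega)⟩⟩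
  · rw [consA_succ, consB_succ, consA_succ, consB_succ]
    exact h3 i j (fun hh => hij (congrArg Fin.succ hh))

lemma hl_of (ε : ℝ) (A B D N : ℕ) (h : Fin 3 → ℤ)
    (hH : ∀ c : Fin 3 → ℤ, (∀ i, (|c i| : ℝ) ≤ Real.log N ^ D) → HW consA consB ε A B D N (fun i => h i + c i)) :
    HardyLittlewood ε A B D N h := by
  intro c hc α hα hadm
  obtain ⟨S, hS0, hSt, hS⟩ := hH c hc α hadm.1 (fun i => by rw [Nat.cast_natAbs, Int.cast_abs]; exact hα i)
    (adm_of α _ hadm) (dist_of α _ hadm)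
  refine ⟨S, hS0, by rw [euler_eq]; exact hSt, fun y₁ y₂ h12 hy2 hΔ => ?_⟩
  rw [count_eq]
  exact hS y₁ y₂ h12.le hy2 hΔ

open Classical in
/-- Fix `h, h' ≥ 1`, `r`, `A`, `B`, `C`, `D`, `J`, `U` and `ε > 0`. For all large `N` and `l = 0, 1, 2` let `X l ≤ (Y l) ^ r`,
`Y l ≤ (X l) ^ r`, let `X l Y l` be between `N / log ^ J N` and `N log ^ J N`; let `v l i`, `i ∈ ι l`, and `w l j`,
`j ∈ ι' l`, be arbitrary finite families of integers with `|v l i| ≤ B X l`, `|w l j| ≤ B Y l`, whose additive energies of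
orders `h` and `h'` are at most `log ^ C N (#ι l) ^ (2 h) / X l` and `log ^ C N (#ι' l) ^ (2 h') / Y l` (up to powers of the
logarithm the least possible energies); let `κ l ≠ 0` and let `F l`, `G l` be ARBITRARY integer valued functions on `ι l`,
`ι' l` with `|κ_l v_l(i) w_l(j) + F_l(i) + G_l(j)| ≤ B N`.

Then for all but at most `∏ #(ι l) #(ι' l) / log ^ U N` of the `((i₀, j₀), (i₁, j₁), (i₂, j₂))` the numbers
`h_l = κ_l v_l(i_l) w_l(j_l) + F_l(i_l) + G_l(j_l)` have the property `HardyLittlewood`: for ALL integers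
`|c_l| ≤ log ^ D N` (in particular for `c = (2, 6, 8)`, the pattern of the problem) the quadruples `p`, `p + c₀ + h₀`,
`p + c₁ + h₁`, `p + c₂ + h₂`, and more generally `p`, `α_l p + c_l + h_l` with `|α_l| ≤ log ^ D N`, satisfy the
Hardy-Littlewood formula in all the windows `y₁ < p ≤ y₂ ≤ B N` of length at least `N / log ^ A N`, with a relative error
of at most `ε`. -/
theorem result (h h' r A B C D J U : ℕ) (hh : 1 ≤ h) (hh' : 1 ≤ h') (hr : 1 ≤ r) (ε : ℝ) (hε : 0 < ε) :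
    ∃ N₀ : ℕ, ∀ N : ℕ, N₀ ≤ N → ∀ X Y : Fin 3 → ℕ, (∀ l, X l ≤ Y l ^ r) → (∀ l, Y l ≤ X l ^ r) →
    (∀ l, (N : ℝ) ≤ Real.log N ^ J * ((X l * Y l : ℕ) : ℝ)) → (∀ l, ((X l * Y l : ℕ) : ℝ) ≤ Real.log N ^ J * N) →
    ∀ (ι ι' : Fin 3 → Type) [∀ l, Fintype (ι l)] [∀ l, Fintype (ι' l)] (v : ∀ l, ι l → ℤ) (w : ∀ l, ι' l → ℤ),
    (∀ l i, |v l i| ≤ B * X l) → (∀ l j, |w l j| ≤ B * Y l) →
    (∀ l, (energy h (v l) : ℝ) * X l ≤ Real.log N ^ C * (Fintype.card (ι l) : ℝ) ^ (2 * h)) →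
    (∀ l, (energy h' (w l) : ℝ) * Y l ≤ Real.log N ^ C * (Fintype.card (ι' l) : ℝ) ^ (2 * h')) →
    ∀ (F : ∀ l, ι l → ℤ) (G : ∀ l, ι' l → ℤ) (κ : Fin 3 → ℤ), (∀ l, κ l ≠ 0) →
    (∀ l i j, |κ l * v l i * w l j + F l i + G l j| ≤ B * N) →
    ((univ.filter (fun s : ∀ l, ι l × ι' l =>
        ¬ HardyLittlewood ε A B D N (fun l => κ l * v l (s l).1 * w l (s l).2 + F l (s l).1 + G l (s l).2))).card : ℝ) ≤
      (∏ l, (Fintype.card (ι l) : ℝ) * Fintype.card (ι' l)) / Real.log N ^ U := by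
  obtain ⟨N₀, h0⟩ := Pool.Agent.Run7.h536.CE.sys_bilin (sys_lam 3 (by norm_num)) (by norm_num) h h' r A B C D J U hh hh' hr ε hε
  refine ⟨N₀, fun N hN X Y hXY hYX hN1 hN2 ι ι' _ _ v w hv hw hE hE' F G κ hκ hB => ?_⟩
  apply h0 N hN X Y hXY hYX hN1 hN2 ι ι' v w hv hw hE hE' F G κ hκ hB
  intro s hs hH
  exact (mem_filter.1 hs).2 (hl_of ε A B D N _ hH)

end Pool.Agent.Results.MP_fc51f7_nt.BilinearDisplacements
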