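import Pool.Agent.Run7.h560.AP.Forms2

set_option autoImplicit false

/-!
# Clusters of (almost) prime quadruplets at the integers given by their digits
-/

namespace Pool.Agent.Results.MP_fc51f7_nt.DigitQuadruplets

open Finset
open Pool.Agent.Run7.h560.AP

/-- `m, m + 2, m + 6, m + 8` are prime -/
def Quadruplet (m : ℕ) : Prop := m.Prime ∧ (m + 2).Prime ∧ (m + 6).Prime ∧ (m + 8).Prime

/-- `m, m + 2, m + 6, m + 8` have at most `R` prime factors each, all of them greater than `y` -/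
def AlmostQuadruplet (R : ℕ) (y : ℝ) (m : ℕ) : Prop :=
  Almost R y m ∧ Almost R y (m + 2) ∧ Almost R y (m + 6) ∧ Almost R y (m + 8)

/-- the number of the residue classes `n` modulo `p` for which `p` divides the product of the `4 r` numbers -/
noncomputable def roots {r : ℕ} (t : Fin r → ℕ) (p : ℕ) : ℕ :=
  Set.ncard {n : ℕ | n < p ∧ p ∣ ∏ j, ((n + t j) * (n + t j + 2) * (n + t j + 6) * (n + t j + 8))}

/-- the density `∏ (1 - roots(p) / p)` over the primes `p ≤ x` -/
noncomputable def dens {r : ℕ} (t : Fin r → ℕ) (x : ℕ) : ℝ :=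
  ∏ p ∈ (range (x + 1)).filter Nat.Prime, (1 - (roots t p : ℝ) / p)

/-- the shifts inside a quadruplet -/
def hh : Fin 4 → ℕ := ![0, 2, 6, 8]

/-- the constants of the forms -/
def fc {r : ℕ} (t : Fin r → ℕ) : Fin (r * 4) → ℤ := fun m => ((t m.divNat + hh m.modNat : ℕ) : ℤ)

/-- the coefficients of the forms -/
def fa (r : ℕ) : Fin (r * 4) → ℤ := fun _ => 1

lemma fval {r : ℕ} (t : Fin r → ℕ) (n : ℕ) (m : Fin (r * 4)) :
    fa r m * (n : ℤ) + fc t m = ((n + t m.divNat + hh m.modNat : ℕ) : ℤ) := by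
  unfold fa fc
  push_cast
  ring

lemma fprod {r : ℕ} (t : Fin r → ℕ) (n : ℕ) : ∏ i, (fa r i * n + fc t i) =
    ((∏ j, ((n + t j) * (n + t j + 2) * (n + t j + 6) * (n + t j + 8)) : ℕ) : ℤ) := by
  simp only [fval]
  rw [← Nat.cast_prod]
  congr 1
  rw [← finProdFinEquiv.prod_comp, Fintype.prod_prod_type]
  apply prod_congr rfl
  intro j _
  have h1 : ∀ i : Fin 4, (finProdFinEquiv (j, i)).divNat = j := fun i =>
    congrArg Prod.fst (finProdFinEquiv.symm_apply_apply (j, i))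
  have h2 : ∀ i : Fin 4, (finProdFinEquiv (j, i)).modNat = i := fun i =>
    congrArg Prod.snd (finProdFinEquiv.symm_apply_apply (j, i))
  simp only [h1, h2]
  rw [Fin.prod_univ_four]
  rfl

lemma rho_roots {r : ℕ} (t : Fin r → ℕ) (p : ℕ) : rho (fa r) (fc t) p = roots t p := by
  rw [rho_ncard (fa r) (fc t) p _ (fprod t)]
  unfold roots
  congr 1
  ext n
  rw [Set.mem_ofPred_eq, Set.mem_ofPred_eq, Int.natCast_dvd_natCast]

lemma forms_ok {r : ℕ} (t : Fin r → ℕ) : ∀ i, fa r i ≠ 0 ∧ IsCoprime (fa r i) (fc t i) :=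
  fun _ => ⟨one_ne_zero, isCoprime_one_left⟩

lemma admissible {r : ℕ} (t : Fin r → ℕ) (ht : ∀ p : ℕ, p.Prime → p ≤ 4 * r → ∀ j, p ∣ t j) (p : ℕ) (hp : p.Prime) :
    rho (fa r) (fc t) p < p := by
  by_cases h : p ≤ 4 * r
  · apply rho_lt _ _ p hp
    obtain ⟨n, hn⟩ : ∃ n : ℕ, ∀ i : Fin 4, ¬ p ∣ n + hh i := by
      by_cases h37 : p = 3 ∨ p = 7
      · refine ⟨2, fun i => ?_⟩
        rcases h37 with rfl | rfl <;> fin_cases i <;> simp [hh]
      · refine ⟨1, fun i => ?_⟩
        push Not at h37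
        have hp2 := hp.two_le
        by_cases h9 : 10 ≤ p
        · intro hd
          have h1 := Nat.le_of_dvd (by omega) hd
          have h2 : hh i ≤ 8 := by fin_cases i <;> simp [hh]
          omega
        · have hp' : p = 2 ∨ p = 5 := by
            interval_cases p
            · exact Or.inl rfl
            · omega
            · norm_num at hp
            · exact Or.inr rfl
            · norm_num at hp
            · omega
            · norm_num at hp
            · norm_num at hp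
          rcases hp' with rfl | rfl <;> fin_cases i <;> simp [hh]
    refine ⟨n, fun m hd => hn m.modNat ?_⟩
    rw [fval, Int.natCast_dvd_natCast] at hd
    have h1 := ht p hp h m.divNat
    have e : n + t m.divNat + hh m.modNat = (n + hh m.modNat) + t m.divNat := by ring
    rw [e] at hd
    exact (Nat.dvd_add_left h1).1 hd
  · have := rho_le (fa r) (fc t) (fun i => (forms_ok t i).2) p hp
    omega

/-- **Main theorem.** -/
theorem result :
    (∀ b : ℕ, 2 ≤ b → ∀ (σ : Type) [Fintype σ] (M : DFA ℕ σ), NonSparse (autoSet b M) → ∀ r : ℕ,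
      ∃ (C : ℝ) (x₀ : ℕ), 0 < C ∧ ∀ x : ℕ, x₀ ≤ x → ∀ t : Fin r → ℕ, (∀ p : ℕ, p.Prime → p ≤ 4 * r → ∀ j, p ∣ t j) →
        (Set.ncard {n : ℕ | n ∈ autoSet b M ∧ n < x ∧ ∀ j, Quadruplet (n + t j)} : ℝ) ≤
          C * below (autoSet b M) x * dens t x) ∧
    (∀ b : ℕ, 2 ≤ b → ∀ S : Finset ℕ, 0 ∈ S → 1 ∈ S → ∀ r D : ℕ, ∃ (R : ℕ) (η c : ℝ) (x₀ : ℕ), 0 < η ∧ 0 < c ∧
      ∀ x : ℕ, x₀ ≤ x → ∀ t : Fin r → ℕ, (∀ j, t j ≤ x ^ D) → (∀ p : ℕ, p.Prime → p ≤ 4 * r → ∀ j, p ∣ t j) →
      (∃ e ∈ S, e < b ∧ ∀ j, Nat.Coprime (e + t j) b ∧ Nat.Coprime (e + t j + 2) b ∧ Nat.Coprime (e + t j + 6) b ∧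
        Nat.Coprime (e + t j + 8) b) →
        c * below (digitSet b S) x * dens t x ≤
          (Set.ncard {n : ℕ | n ∈ digitSet b S ∧ n < x ∧ ∀ j, AlmostQuadruplet R ((x : ℝ) ^ η) (n + t j)} : ℝ)) ∧
    (∀ r : ℕ, ∃ c : ℝ, 0 < c ∧ ∀ t : Fin r → ℕ, (∀ p : ℕ, p.Prime → p ≤ 4 * r → ∀ j, p ∣ t j) →
      (∀ x : ℕ, 2 ≤ x → c / Real.log x ^ (4 * r) ≤ dens t x) ∧
      ((Function.Injective fun m : Fin r × Fin 4 => t m.1 + (![0, 2, 6, 8] : Fin 4 → ℕ) m.2) →
        ∃ C : ℝ, ∀ x : ℕ, 2 ≤ x → dens t x ≤ C / Real.log x ^ (4 * r))) := by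
  classical
  have hdens : ∀ (r : ℕ) (t : Fin r → ℕ) (x : ℕ), ∏ p ∈ (range (x + 1)).filter Nat.Prime, (1 - (rho (fa r) (fc t) p : ℝ) / p) = dens t x := by
    intro r t x
    unfold dens
    apply prod_congr rfl
    intro p _
    rw [rho_roots]
  refine ⟨fun b hb σ _ M hM r => ?_, fun b hb S h0 h1 r D => ?_, fun r => ?_⟩
  · obtain ⟨C, N₀, hC, h⟩ := sys_upper b hb M (nonsparse b M hM) (r * 4)
    refine ⟨C, N₀, hC, fun x hx t ht => ?_⟩
    have h2 := h x hx (fa r) (fc t) (forms_ok t) (fun p hp => admissible t ht p hp)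
    rw [hdens] at h2
    rw [below_cnt]
    refine le_trans ?_ h2
    rw [Nat.cast_le]
    apply ncard_le_cnt
    rintro n ⟨a1, a2, a3⟩
    refine ⟨a1, a2, fun m => ?_⟩
    rw [fval, Int.natAbs_natCast]
    obtain ⟨b1, b2, b3, b4⟩ := a3 m.divNat
    have h4 : ∀ i : Fin 4, (n + t m.divNat + hh i).Prime := by
      intro i
      fin_cases i
      · exact b1
      · exact b2
      · exact b3
      · exact b4
    exact h4 _
  · obtain ⟨R, η, c₀, N₀, hη, hc₀, h⟩ := digits_lower b hb S h0 h1 (r * 4) (D + 4)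
    refine ⟨R, η, c₀, N₀ + 2, hη, hc₀, fun x hx t htD ht he => ?_⟩
    obtain ⟨e, heS, heb, he⟩ := he
    have h2 := h x (by omega) (fa r) (fc t) (fun i => (forms_ok t i).2) (by
      intro m
      have hx1 : 1 ≤ x ^ (D + 4) := Nat.one_le_pow _ _ (by omega)
      refine ⟨by simpa [fa] using hx1, ?_⟩
      unfold fc
      rw [Int.natAbs_natCast]
      have h3 : hh m.modNat ≤ 8 := by
        generalize m.modNat = i
        fin_cases i <;> simp [hh]
      have h4 := htD m.divNat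
      have h5 : 16 ≤ x ^ 4 := by
        calc 16 = 2 ^ 4 := by norm_num
          _ ≤ x ^ 4 := Nat.pow_le_pow_left (by omega) 4
      have h6 : 1 ≤ x ^ D := Nat.one_le_pow _ _ (by omega)
      rw [pow_add]
      nlinarith) (fun p hp _ => admissible t ht p hp) ⟨e, heS, heb, by
      intro m
      rw [fval, Nat.isCoprime_iff_coprime]
      obtain ⟨b1, b2, b3, b4⟩ := he m.divNat
      have h4 : ∀ i : Fin 4, Nat.Coprime (e + t m.divNat + hh i) b := by
        intro i
        fin_cases i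
        · exact b1
        · exact b2
        · exact b3
        · exact b4
      exact h4 _⟩
    rw [hdens] at h2
    rw [digit_auto, below_cnt]
    refine h2.trans ?_
    rw [Nat.cast_le]
    have h3 := cnt_le_ncard b (dfa S) x
      (fun n => ∀ i, fa r i * n + fc t i ≠ 0 ∧ (fa r i * n + fc t i).natAbs.primeFactorsList.length ≤ R ∧
        ∀ p : ℕ, p.Prime → (p : ℤ) ∣ fa r i * n + fc t i → (x : ℝ) ^ η < p)
      {n : ℕ | n ∈ autoSet b (dfa S) ∧ n < x ∧ ∀ j, AlmostQuadruplet R ((x : ℝ) ^ η) (n + t j)}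
      (fin_lt x _ (fun n hn => hn.2.1)) ∅ (by
      intro n a1 a2 a3
      left
      refine ⟨a1, a2, fun j => ?_⟩
      have hal : ∀ i : Fin 4, Almost R ((x : ℝ) ^ η) (n + t j + hh i) := by
        intro i
        obtain ⟨b1, b2, b3⟩ := a3 (finProdFinEquiv (j, i))
        have e1 : (finProdFinEquiv (j, i)).divNat = j := congrArg Prod.fst (finProdFinEquiv.symm_apply_apply (j, i))
        have e2 : (finProdFinEquiv (j, i)).modNat = i := congrArg Prod.snd (finProdFinEquiv.symm_apply_apply (j, i))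
        rw [fval, e1, e2] at b1 b2 b3
        rw [Int.natAbs_natCast] at b2
        exact ⟨by exact_mod_cast b1, b2, fun p hp hpd => b3 p hp (Int.natCast_dvd_natCast.2 hpd)⟩
      exact ⟨hal 0, hal 1, hal 2, hal 3⟩)
    rw [card_empty, add_zero] at h3
    exact h3
  · obtain ⟨c, hc, h⟩ := prod_low (r * 4)
    refine ⟨c, hc, fun t ht => ⟨fun x hx => ?_, fun hinj => ?_⟩⟩
    · have h1 := h (rho (fa r) (fc t)) x hx (fun p hp =>
        ⟨rho_le (fa r) (fc t) (fun i => (forms_ok t i).2) p hp, admissible t ht p hp⟩)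
      have h2 : ∏ p ∈ prs x, (1 - (rho (fa r) (fc t) p : ℝ) / p) = dens t x := hdens r t x
      rw [h2, mul_comm r 4] at h1
      exact h1
    · obtain ⟨c', C, hc', hC, h'⟩ := dens_bounds (fa r) (fc t) (forms_ok t) (by
        intro i j hij
        unfold fa
        rw [one_mul, one_mul, sub_ne_zero]
        intro hcon
        apply hij
        have h1 : (fun m : Fin r × Fin 4 => t m.1 + (![0, 2, 6, 8] : Fin 4 → ℕ) m.2) (j.divNat, j.modNat) =
            (fun m : Fin r × Fin 4 => t m.1 + (![0, 2, 6, 8] : Fin 4 → ℕ) m.2) (i.divNat, i.modNat) := by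
          unfold fc at hcon
          exact_mod_cast hcon
        have h2 := hinj h1
        have h3 : finProdFinEquiv.symm j = finProdFinEquiv.symm i := h2
        exact (finProdFinEquiv.symm.injective h3).symm) (fun p hp => admissible t ht p hp)
      refine ⟨C, fun x hx => ?_⟩
      have h1 := (h' x hx).2
      have h2 : ∏ p ∈ prs x, (1 - (rho (fa r) (fc t) p : ℝ) / p) = dens t x := hdens r t x
      rw [h2, mul_comm r 4] at h1
      exact h1

end Pool.Agent.Results.MP_fc51f7_nt.DigitQuadruplets
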