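import Pool.Agent.Run7.h90.AU.Alt

set_option autoImplicit false

/-!
# Five consecutive odd numbers with four primes, at thin families of residues modulo a prime

Let `p` be a large prime and let `(v_i)`, `i ∈ s`, be a family of residues modulo `p` whose exponential sums
`∑ e(ξ v_i / p)`, `ξ ≠ 0`, are at most `p ^ (-ε) |s|`; the family may be very thin. Examples: the values of a sparse
polynomial of arbitrary degree on a subgroup of order `p ^ η`, the values `c_1 g_1 ^ n + ... + c_k g_k ^ n`, `n < N`,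
`N ≥ p ^ η`. The theorem is about the integers `n` congruent to a member of the family modulo `p` in an interval of length
`L ≥ p ^ (1 - δ)`. The
numbers `n > 3` such that at least four of `n, n + 2, n + 4, n + 6, n + 8` have no prime factors up to `z` have the
frequency predicted by Hardy and Littlewood for four primes.

Proof: bound of Bourgain, Glibichuk and Konyagin in the form for recurrences and monomials (`Agent/Run7/h823/BK9`);
equidistribution in the residue classes modulo all integers up to `p ^ δ` and the fundamental lemma of the sieve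
(`Agent/Run7/h90/AU`).
-/

namespace Pool.Agent.Results.MP_fc51f7_nt.SparsePolynomialValues

open Finset Filter Topology
open Pool.Agent.Run7.h90.AU (Formula Orders SparseSmall RecurrencesSmall)

/-- The partial products of the constant of the prime quadruples. -/
noncomputable def partialConstant (z : ℕ) : ℝ :=
  27 / 2 * ∏ q ∈ (Icc 4 z).filter Nat.Prime, ((q : ℝ) ^ 3 * ((q : ℝ) - 4) / ((q : ℝ) - 1) ^ 4)

/-- All the numbers `n, n + 2, n + 6, n + 8` have the property `P`. -/
def Quadruple (P : ℕ → Prop) (n : ℕ) : Prop := P n ∧ P (n + 2) ∧ P (n + 6) ∧ P (n + 8)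

open scoped Classical in
/-- `n > 3` is odd and at least four of the five numbers `n, n + 2, n + 4, n + 6, n + 8` have the property `P`. -/
noncomputable def Four (P : ℕ → Prop) (n : ℕ) : Prop :=
  3 < n ∧ Odd n ∧ 4 ≤ ((range 5).filter fun i => P (n + 2 * i)).card

/-- constant terms of the linear forms -/
def a1 : Fin 4 → ℤ := ![0, 2, 6, 8]

/-- leading coefficients of the linear forms -/
def d1 : Fin 4 → ℤ := ![1, 1, 1, 1]

theorem iff1 (P : ℕ → Prop) (n : ℕ) (hn : 1 ≤ n) :
    (∀ j, P (a1 j + d1 j * (n : ℤ)).natAbs) ↔ Quadruple P n := by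
  unfold a1 d1 Quadruple
  simp only [Fin.forall_fin_succ, Fin.forall_fin_zero, Matrix.cons_val_zero, Matrix.cons_val_succ, and_true]
  have e0 : ((0 : ℤ) + 1 * (n : ℤ)).natAbs = n := by omega
  have e1 : ((2 : ℤ) + 1 * (n : ℤ)).natAbs = n + 2 := by omega
  have e2 : ((6 : ℤ) + 1 * (n : ℤ)).natAbs = n + 6 := by omega
  have e3 : ((8 : ℤ) + 1 * (n : ℤ)).natAbs = n + 8 := by omega
  rw [e0, e1, e2, e3]

theorem nd1 : Pool.Agent.Run7.h90.AU.ND a1 d1 := by
  refine Pool.Agent.Run7.h90.AU.nd_of (by decide) (by decide)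
    (fun j => Int.isCoprime_iff_gcd_eq_one.2 (by revert j; decide)) ?_
  · intro l hl h
    have hl2 := hl.two_le
    have hne4 : l ≠ 4 := by
      rintro rfl
      exact absurd hl (by decide)
    have hcase : l = 2 ∨ l = 3 := by omega
    rcases hcase with rfl | rfl
    · exact ⟨1, by decide⟩
    · exact ⟨2, by decide⟩

theorem res1 : (Pool.Agent.Run7.h90.AU.Res a1 d1).natAbs = 4608 := by decide

theorem om1 : Pool.Agent.Run7.h90.AU.om a1 d1 2 = 1 ∧ Pool.Agent.Run7.h90.AU.om a1 d1 3 = 2 := by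
  unfold Pool.Agent.Run7.h90.AU.om
  decide

theorem psing1 {z : ℕ} (hz : 3 ≤ z) : Pool.Agent.Run7.h90.AU.psing a1 d1 z = partialConstant z := by
  rw [Pool.Agent.Run7.h90.AU.psing_exp nd1 3 (fun l hl h => by
    rw [res1] at h
    exact (Pool.Agent.Run7.h90.AU.sm23 hl h 9 2 (by norm_num)).trans (by norm_num)) hz]
  have e1 : Pool.Agent.Run7.h90.AU.psing a1 d1 3 = 27 / 2 := by
    unfold Pool.Agent.Run7.h90.AU.psing
    have e : (range (3 + 1)).filter Nat.Prime = {2, 3} := by decide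
    rw [e, prod_insert (by decide), prod_singleton, om1.1, om1.2]
    norm_num
  have e2 : ∀ q ∈ (Icc (3 + 1) z).filter Nat.Prime, (1 - ((4 : ℕ) : ℝ) / q) / (1 - 1 / (q : ℝ)) ^ 4 =
      ((q : ℝ) ^ 3 * ((q : ℝ) - 4) / ((q : ℝ) - 1) ^ 4) := by
    intro q hq
    rw [mem_filter, mem_Icc] at hq
    have h4 : (3 : ℝ) + 1 ≤ q := by exact_mod_cast hq.1.1
    have h1 : (q : ℝ) ≠ 0 := by linarith
    have h2 : (q : ℝ) - 1 ≠ 0 := by linarith
    have e : (1 : ℝ) - 1 / q = (q - 1) / q := by field_simp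
    rw [e]
    field_simp
    push_cast
    ring
  unfold partialConstant
  rw [e1, prod_congr rfl e2]

theorem four_iff (P : ℕ → Prop) (n : ℕ) (h0 : P n → n % 3 ≠ 0) (h1 : P (n + 2) → (n + 2) % 3 ≠ 0)
    (h2 : P (n + 4) → (n + 4) % 3 ≠ 0) (h3 : P (n + 6) → (n + 6) % 3 ≠ 0) (h4 : P (n + 8) → (n + 8) % 3 ≠ 0)
    (hn : 3 < n) (ho : Odd n) : Four P n ↔ Quadruple P n := by
  classical
  have e : ((range 5).filter fun i => P (n + 2 * i)).card = (if P n then 1 else 0) + (if P (n + 2) then 1 else 0) +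
      (if P (n + 4) then 1 else 0) + (if P (n + 6) then 1 else 0) + (if P (n + 8) then 1 else 0) := by
    rw [card_filter]
    simp only [sum_range_succ, sum_range_zero, zero_add, mul_zero, add_zero, mul_one]
  have hF : Four P n ↔ 4 ≤ (if P n then 1 else 0) + (if P (n + 2) then 1 else 0) +
      (if P (n + 4) then 1 else 0) + (if P (n + 6) then 1 else 0) + (if P (n + 8) then 1 else 0) := by
    unfold Four
    rw [← e]
    constructor
    · rintro ⟨_, _, h⟩
      convert h
    · intro h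
      refine ⟨hn, ho, ?_⟩
      convert h
  rw [hF]
  unfold Quadruple
  by_cases c0 : P n <;> by_cases c1 : P (n + 2) <;> by_cases c2 : P (n + 4) <;> by_cases c3 : P (n + 6) <;>
    by_cases c4 : P (n + 8) <;> simp [c0, c1, c2, c3, c4] at h0 h1 h2 h3 h4 ⊢ <;> omega

theorem rough_iff (z : ℕ) (hz : 3 ≤ z) (n : ℕ) (_ : 1 ≤ n) :
    Quadruple (Pool.Agent.Run7.h90.AU.Rough z) n ↔ Four (Pool.Agent.Run7.h90.AU.Rough z) n := by
  have hR : ∀ m, Pool.Agent.Run7.h90.AU.Rough z m → m % 3 ≠ 0 := fun m hm h =>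
    hm 3 Nat.prime_three hz (Nat.dvd_of_mod_eq_zero h)
  have hR2 : ∀ m, Pool.Agent.Run7.h90.AU.Rough z m → m % 2 ≠ 0 := fun m hm h =>
    hm 2 Nat.prime_two (by omega) (Nat.dvd_of_mod_eq_zero h)
  constructor
  · intro h
    have k0 := hR _ h.1
    have k1 := hR _ h.2.1
    have k2 := hR2 _ h.1
    have hn : 3 < n := by
      rcases Nat.lt_or_ge 3 n with h5 | h5
      · exact h5
      · exfalso
        interval_cases n <;> omega
    have ho : Odd n := Nat.odd_iff.2 (by omega)
    exact (four_iff _ n (hR _) (hR _) (hR _) (hR _) (hR _) hn ho).2 h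
  · intro h
    exact (four_iff _ n (hR _) (hR _) (hR _) (hR _) (hR _) h.1 h.2.1).1 h

theorem almost_imp (r : ℕ) (y : ℝ) (hy : (4 : ℝ) ≤ y) (n : ℕ) (_ : 1 ≤ n) :
    Quadruple (Pool.Agent.Run7.h90.AU.Almost r y) n → Four (Pool.Agent.Run7.h90.AU.Almost r y) n := by
  intro h
  have hq : ∀ l : ℕ, l.Prime → l ≤ 3 → ∀ m, Pool.Agent.Run7.h90.AU.Almost r y m → m % l ≠ 0 := by
    intro l hl hl3 m hm h0
    have h1 := hm.2.2 l ((Nat.mem_primeFactorsList hm.1).2 ⟨hl, Nat.dvd_of_mod_eq_zero h0⟩)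
    have h2 : (l : ℝ) ≤ 3 := by exact_mod_cast hl3
    linarith
  have k0 := hq 3 Nat.prime_three le_rfl _ h.1
  have k1 := hq 3 Nat.prime_three le_rfl _ h.2.1
  have k2 := hq 2 Nat.prime_two (by omega) _ h.1
  have hn : 3 < n := by
    rcases Nat.lt_or_ge 3 n with h5 | h5
    · exact h5
    · exfalso
      interval_cases n <;> omega
  have ho : Odd n := Nat.odd_iff.2 (by omega)
  exact (four_iff _ n (hq 3 Nat.prime_three le_rfl _) (hq 3 Nat.prime_three le_rfl _)
    (hq 3 Nat.prime_three le_rfl _) (hq 3 Nat.prime_three le_rfl _) (hq 3 Nat.prime_three le_rfl _) hn ho).2 h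

theorem prime_imp (n : ℕ) (_ : 1 ≤ n) : Four Nat.Prime n → Quadruple Nat.Prime n := by
  intro h
  have hn := h.1
  have hq : ∀ m, n ≤ m → m.Prime → m % 3 ≠ 0 := fun m hm hp h0 => by
    have := (Nat.prime_dvd_prime_iff_eq Nat.prime_three hp).1 (Nat.dvd_of_mod_eq_zero h0)
    omega
  exact (four_iff _ n (hq _ le_rfl) (hq _ (by omega)) (hq _ (by omega)) (hq _ (by omega)) (hq _ (by omega)) h.1 h.2.1).1 h

theorem result : ∃ D : ℝ,
    0 < D ∧ Tendsto partialConstant atTop (𝓝 D) ∧
    Formula 4 Four D ∧ Orders 4 Four ∧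
    SparseSmall ∧ RecurrencesSmall := by
  obtain ⟨E1, hE1, hl1⟩ := Pool.Agent.Run7.h90.AU.lim_of nd1
  have hC1 : Tendsto partialConstant atTop (𝓝 E1) := hl1.congr' (by
    filter_upwards [eventually_ge_atTop 3] with z hz
    exact psing1 hz)
  have F1 := Pool.Agent.Run7.h90.AU.formula_of nd1 iff1 hE1 hl1
  have O1 := Pool.Agent.Run7.h90.AU.orders_of nd1 iff1 hE1 hl1
  have G1 := Pool.Agent.Run7.h90.AU.formula_congr F1 3 rough_iff
  have G2 := Pool.Agent.Run7.h90.AU.orders_congr O1 4 almost_imp prime_imp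
  refine ⟨E1, hE1, hC1, G1, G2, Pool.Agent.Run7.h90.AU.sparse_small, Pool.Agent.Run7.h90.AU.rec_small⟩

end Pool.Agent.Results.MP_fc51f7_nt.SparsePolynomialValues
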