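import Pool.Agent.Run7.h844.RP.PwR9

/-!
# Five consecutive odd integers with four primes: the asymptotic formula of Hardy and Littlewood, with the exact constant, for
displacements by multiples of the values of generalised polynomials at primes

Method: exponential sums over primes with the phase of a generalised polynomial: derivative bounds uniform in the
coefficients, van der Corput differencing of all orders, bilinear sums, Vaughan's identity (after `Pool.Agent.H895R3.NK`,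
`Pool.Agent.H373R2.T7`), with a power saving at all frequencies up to a power, and a discrete Fejér kernel for the passage to
the integer parts (library `Pool.Agent.Run7.h844.RP`). With this input the sieve and the circle
method for classes of laws with small exponential sums (`Pool.Agent.N625.PT`, `Pool.Agent.Run7.h672.XC`) go through; the
constants are computed in `Pool.Agent.Run7.h414.HL`.
-/

set_option autoImplicit false

open Finset Filter
open scoped Topology
open Pool.Agent.Run7.h414.HL (Tup PrP shape26 shape46 shape268 shape4610 f3_lim f4_lim)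

namespace Pool.Agent.Results.MP_fc51f7_nt.ValuesAtPrimes

/-- The generalised polynomial `∑ a x * t ^ x`, `x ∈ F`, with real exponents and coefficients. -/
noncomputable def genPoly (F : Finset ℝ) (a : ℝ → ℝ) (t : ℝ) : ℝ := ∑ x ∈ F, a x * t ^ x

/-- `c` is the largest exponent; it is positive and not an integer, and its coefficient is not zero. -/
def Leading (F : Finset ℝ) (a : ℝ → ℝ) (c : ℝ) : Prop :=
  c ∈ F ∧ (∀ x ∈ F, x ≤ c) ∧ 0 < c ∧ (∀ m : ℕ, c ≠ m) ∧ a c ≠ 0

/-- the multiple of the product of the primes `≤ y` given by the integers `h` and `w` -/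
def Nw (y h : ℕ) (w : ℤ) : ℤ := ((primorial y * h : ℕ) : ℤ) * w

/-- the number of the primes `p ≤ n` such that `p + 2 + N 0`, `p + 6 + N 1` and `p + 8 + N 2` are prime -/
noncomputable def Quad (n : ℕ) (N : Fin 3 → ℤ) : ℝ :=
  ((Icc 1 n).filter (fun p : ℕ => p.Prime ∧ ((p : ℤ) + 2 + N 0).toNat.Prime ∧ ((p : ℤ) + 6 + N 1).toNat.Prime ∧ ((p : ℤ) + 8 + N 2).toNat.Prime)).card


/-- The triple `w` is `ε`-good: if the multiples `N_j = h_j w_j ∏_{l ≤ y} l` are positive, then `log ^ 4 n / n` times the number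
of the primes `p ≤ n` such that `p + 2 + N_0`, `p + 6 + N_1` and `p + 8 + N_2` are prime differs from `27 / 2 L` by at most
`ε`. -/
def GoodFor (L ε : ℝ) (y : ℕ) (h : Fin 3 → ℕ) (n : ℕ) (w : Fin 3 → ℤ) : Prop :=
  (∀ j, 0 < Nw y (h j) (w j)) →
    |Quad n (fun j => Nw y (h j) (w j)) * (Real.log n ^ 4 / n) - 27 / 2 * L| ≤ ε

lemma eqA (n : ℕ) (N : Fin 3 → ℤ) : ((Tup ![2, 6, 8] N n).card : ℝ) = Quad n N := by
  unfold Tup Quad
  congr 2
  apply filter_congr
  intro p _
  apply and_congr Iff.rfl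
  rw [Fin.forall_fin_succ, Fin.forall_fin_succ, Fin.forall_fin_succ]
  simp

lemma good_iff {r : ℕ} (a : Fin r → ℕ) (l x : ℕ) : Pool.Agent.Run7.h414.HL.Good a l x ↔ ¬ l ∣ x ∧ ∀ j, ¬ l ∣ x + a j := by
  unfold Pool.Agent.Run7.h414.HL.Good
  simp only [Ne, ← Nat.dvd_iff_mod_eq_zero]

lemma admA (l : ℕ) (hl : l.Prime) : ∃ x : ℕ, x < l ∧ Pool.Agent.Run7.h414.HL.Good ![2, 6, 8] l x := by
  have key : ∃ m : ℕ, Pool.Agent.Run7.h414.HL.Good ![2, 6, 8] l m := by
    rcases lt_or_ge l 30 with h30 | h30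
    · refine ⟨101, ?_⟩
      rw [good_iff]
      refine ⟨fun hd => ?_, fun j hd => ?_⟩
      · have := (Nat.prime_dvd_prime_iff_eq hl (by norm_num)).1 hd
        omega
      · fin_cases j <;>
        · have := (Nat.prime_dvd_prime_iff_eq hl (by norm_num)).1 hd
          simp at this
          omega
    · refine ⟨5, ?_⟩
      rw [good_iff]
      refine ⟨fun hd => ?_, fun j hd => ?_⟩
      · have := Nat.le_of_dvd (by omega) hd
        omega
      · have := Nat.le_of_dvd (by omega) hd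
        fin_cases j <;> simp at this <;> omega
  obtain ⟨m, hm⟩ := key
  refine ⟨m % l, Nat.mod_lt _ hl.pos, ?_⟩
  unfold Pool.Agent.Run7.h414.HL.Good at hm ⊢
  rw [Nat.mod_mod]
  exact ⟨hm.1, fun j => by rw [Nat.mod_add_mod]; exact hm.2 j⟩

open Classical in
/-- The products of `p ^ 3 (p - 4) / (p - 1) ^ 4` over the primes `3 < p < N` converge to a number `L > 0`; `27 / 2 L` is the
constant of Hardy and Littlewood for the quadruples `(p, p + 2, p + 6, p + 8)`, the primes in `{p, p + 2, p + 4, p + 6, p + 8}`.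
Let `g_j(t) = ∑ b_j x t ^ x`, `j < 3`, be generalised polynomials (real exponents and coefficients) whose
largest exponents `e_j` are positive and not integers. Let `M` be large, `X_j ^ e_j log M ≤ M ≤ X_j ^ e_j log ^ W M`,
`|z_j|, |c_j| ≤ B M` (`z_j` real, `c_j` an integer), let `y` be between `θ log log M` and `K₁ log log M` (`θ > 0` is arbitrary),
`1 ≤ h_j ≤ log ^ J M`, and let `n` be ANY integer with `M ≤ n log ^ C M`, `n ≤ M log ^ C M`. For all the triples of primes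
`q_j`, `X_j < q_j ≤ 2 X_j`, up to a proportion `ε`, with `N_j = h_j (c_j + κ_j ⌊g_j(q_j) + z_j⌋) ∏_{l ≤ y} l` (`l` prime):
if all `N_j > 0`, then `log ^ 4 n / n` times the number of ALL primes `p ≤ n` for which the four numbers `p`,
`p + 2 + N_0`, `p + 6 + N_1`, `p + 8 + N_2` are prime differs from `27 / 2 L` by at most `ε`. -/
theorem result : ∃ L : ℝ, 0 < L ∧
    Tendsto (fun N : ℕ => ∏ p ∈ (Finset.range N).filter (fun p => p.Prime ∧ 3 < p), (p : ℝ) ^ 3 * ((p : ℝ) - 4) / ((p : ℝ) - 1) ^ 4) atTop (𝓝 L) ∧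
    ∀ (F : Fin 3 → Finset ℝ) (b : Fin 3 → ℝ → ℝ) (e : Fin 3 → ℝ), (∀ j, Leading (F j) (b j) (e j)) →
    ∀ κ : Fin 3 → ℤ, (∀ j, κ j ≠ 0) → ∀ (B J C K₁ W : ℕ) (θ : ℝ), 0 < θ → ∀ ε : ℝ, 0 < ε → ε ≤ 1 → ∃ M₀ : ℕ, ∀ M : ℕ, M₀ ≤ M →
    ∀ X : Fin 3 → ℕ, (∀ j, (X j : ℝ) ^ (e j) * Real.log M ≤ M ∧ (M : ℝ) ≤ (X j : ℝ) ^ (e j) * Real.log M ^ W) →
    ∀ (z : Fin 3 → ℝ) (c : Fin 3 → ℤ), (∀ j, |z j| ≤ B * M ∧ |c j| ≤ B * M) →
    ∀ y : ℕ, θ * Real.log (Real.log M) ≤ y → y ≤ K₁ * Real.log (Real.log M) →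
    ∀ h : Fin 3 → ℕ, (∀ j, 1 ≤ h j ∧ (h j : ℝ) ≤ Real.log M ^ J) →
    ∀ n : ℕ, (M : ℝ) ≤ n * Real.log M ^ C → (n : ℝ) ≤ M * Real.log M ^ C →
      (((Fintype.piFinset fun j => (Ioc (X j) (2 * X j)).filter Nat.Prime).filter fun q : Fin 3 → ℕ =>
          ¬ GoodFor L ε y h n (fun j => c j + κ j * ⌊genPoly (F j) (b j) (q j) + z j⌋)).card : ℝ) ≤
        ε * ∏ j, (((Ioc (X j) (2 * X j)).filter Nat.Prime).card : ℝ) := by
  obtain ⟨L, hL, hlim⟩ := f4_lim
  refine ⟨L, hL, hlim, ?_⟩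
  intro F b e hF κ hκ B J C K₁ W θ hθ ε hε hε1
  choose hcF hmax hc hn hb using hF
  obtain ⟨m0, h0⟩ := Pool.Agent.Run7.h844.RP.hl_pr 3 F b e hcF hn hc hmax hb κ hκ ![2, 6, 8] (by decide) admA (27 / 2 * L)
    (by positivity) (shape268 L hlim) B J C K₁ W θ hθ (ε / 1) (by positivity) (by linarith)
  refine ⟨m0, fun M hM X hX z c hzc y hy1 hy2 h hh n hx1 hx2 => ?_⟩
  have g0 := h0 M (by omega) X hX z c hzc y hy1 hy2 h hh n hx1 hx2
  rw [div_one] at g0
  refine le_trans ?_ g0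
  apply Nat.cast_le.2
  apply card_le_card
  intro q hq
  rw [mem_filter] at hq ⊢
  refine ⟨hq.1, fun hT => hq.2 fun hpos => ?_⟩
  have h6 := hT hpos
  rw [eqA] at h6
  exact h6

end Pool.Agent.Results.MP_fc51f7_nt.ValuesAtPrimes
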